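import Pool.Agent.W2helper58.IR.Stm
import Pool.Agent.W2helper98.PK.Owf
import Pool.Agent.W2helper24.PK.B

/-!
# The random function is one-way: the average success probability of an inverter

The exchange argument of `Pool.Agent.W2helper98.PK.Owf` for the random function `rf` and the
oracles `mix T G B`.
-/

set_option autoImplicit false

namespace Pool.Agent.W2helper68.IR

open Pool.Agent.NPC Pool.Agent.H620R2.Gauge MeasureTheory

open Pool.Agent.W2helper58.IR (mix rf inv pr2 un P_owf1)

open Pool.Agent.W2helper58.GU (acc)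

open Pool.Agent.W2helper56.PK (Coins Pos ext prob)

open Pool.Agent.W2helper98.PK (card_prod_le card_eq_one card_or_le)

/-- the positions of the bits for `x` -/
def bl (x : List Bool) (i : ℕ) : List Bool := false :: false :: (x ++ List.replicate i true)

theorem rf_eq (A : Oracle) (x : List Bool) :
    rf A x = (List.range (3 * x.length)).map fun i => A (bl x i) := rfl

theorem length_bl (x : List Bool) (i : ℕ) : (bl x i).length = x.length + i + 2 := by
  simp [bl]

theorem bl_left {x x' : List Bool} {i i' : ℕ} (hl : x.length = x'.length) (h : bl x i = bl x' i') :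
    x = x' := by
  unfold bl at h
  simp only [List.cons.injEq, true_and] at h
  exact (List.append_inj h hl).1

theorem bl_right {x : List Bool} {i i' : ℕ} (h : bl x i = bl x i') : i = i' := by
  have h1 := congrArg List.length h
  rw [length_bl, length_bl] at h1
  omega

theorem take_bl {x : List Bool} (i : ℕ) : (bl x i).tail.tail.take x.length = x := by
  simp [bl]

theorem rf_length (O : Oracle) (x : List Bool) : (rf O x).length = 3 * x.length := by simp [rf]

section

variable (T : Set (List Bool)) (G Λ : Oracle) {n m : ℕ}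

/-- the position of a bit -/
def bb (hm : 4 * n + 2 ≤ m) (x : Coins n) (j : Fin (3 * n)) : Pos 0 m :=
  ⟨bl (List.ofFn x) j, Nat.zero_le _, by
    rw [length_bl, List.length_ofFn]
    have := j.2
    omega⟩

theorem bb_inj (hm : 4 * n + 2 ≤ m) (x : Coins n) : Function.Injective (bb hm x) := by
  intro j j' h
  have h1 : bl (List.ofFn x) j = bl (List.ofFn x) j' := congrArg Subtype.val h
  exact Fin.ext (bl_right h1)

/-- the oracle -/
noncomputable def OO (ω : Pos 0 m → Bool) : Oracle := Pool.Agent.W2helper58.IR.mix T G (ext Λ ω)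

theorem OO_bl (hT : ∀ u : List Bool, false :: false :: u ∉ T) (hm : 4 * n + 2 ≤ m)
    (ω : Pos 0 m → Bool) (x : Coins n) (j : Fin (3 * n)) :
    OO T G Λ ω (bl (List.ofFn x) j) = ω (bb hm x j) := by
  have h0 := (bb hm x j).2
  unfold OO Pool.Agent.W2helper58.IR.mix
  have hb : bl (List.ofFn x) (j : ℕ) ∉ T := hT _
  rw [if_neg hb]
  unfold ext
  exact dif_pos h0

theorem ext_eq {ω ω' : Pos 0 m → Bool} {z : List Bool} (h : ∀ p : Pos 0 m, p.1 = z → ω' p = ω p) :
    ext Λ ω' z = ext Λ ω z := by
  unfold ext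
  split_ifs with h1
  · exact h _ rfl
  · rfl

theorem extend_ne (hm : 4 * n + 2 ≤ m) (ω : Pos 0 m → Bool) (x : Coins n)
    (y : Fin (3 * n) → Bool) {p : Pos 0 m} (h : ∀ j : Fin (3 * n), p.1 ≠ bl (List.ofFn x) j) :
    Function.extend (bb hm x) y ω p = ω p := by
  apply Function.extend_apply'
  rintro ⟨j, hj⟩
  exact h j (by rw [← hj]; rfl)

theorem OO_ne (hm : 4 * n + 2 ≤ m) (ω : Pos 0 m → Bool) (x : Coins n) (y : Fin (3 * n) → Bool)
    {z : List Bool} (h : ∀ j : Fin (3 * n), z ≠ bl (List.ofFn x) j) :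
    OO T G Λ (Function.extend (bb hm x) y ω) z = OO T G Λ ω z := by
  unfold OO Pool.Agent.W2helper58.IR.mix
  split_ifs with h1
  · rfl
  refine ext_eq Λ fun p hp => extend_ne hm ω x y fun j hj => h j ?_
  rw [← hp, hj]

theorem rf_extend (hT : ∀ u : List Bool, false :: false :: u ∉ T) (hm : 4 * n + 2 ≤ m)
    (ω : Pos 0 m → Bool) (x : Coins n) (y : Fin (3 * n) → Bool) :
    rf (OO T G Λ (Function.extend (bb hm x) y ω)) (List.ofFn x) = List.ofFn y := by
  have hx : (List.ofFn x).length = n := List.length_ofFn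
  refine List.ext_getElem (by rw [rf_length, hx, List.length_ofFn]) fun j h1 h2 => ?_
  rw [rf_length, hx] at h1
  have h3 := OO_bl T G Λ hT hm (Function.extend (bb hm x) y ω) x ⟨j, h1⟩
  rw [(bb_inj hm x).extend_apply] at h3
  simp only [rf_eq, List.getElem_map, List.getElem_range, List.getElem_ofFn]
  exact h3

theorem rf_ne (hm : 4 * n + 2 ≤ m) (ω : Pos 0 m → Bool) (x : Coins n)
    (y : Fin (3 * n) → Bool) {x' : List Bool} (hl : x'.length = n) (h : x' ≠ List.ofFn x) :
    rf (OO T G Λ (Function.extend (bb hm x) y ω)) x' = rf (OO T G Λ ω) x' := by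
  rw [rf_eq, rf_eq]
  refine List.map_congr_left fun j _ => OO_ne T G Λ hm ω x y fun j' hj => h (bl_left ?_ hj)
  rw [hl, List.length_ofFn]

/-- the exchange of the bits for `x` with fresh bits -/
noncomputable def swp (hm : 4 * n + 2 ≤ m) (p : (Coins n × (Pos 0 m → Bool)) × (Fin (3 * n) → Bool)) :
    (Coins n × (Pos 0 m → Bool)) × (Fin (3 * n) → Bool) :=
  ((p.1.1, Function.extend (bb hm p.1.1) p.2 p.1.2), fun j => p.1.2 (bb hm p.1.1 j))

theorem swp_swp (hm : 4 * n + 2 ≤ m) : Function.Involutive (swp (n := n) hm) := by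
  rintro ⟨⟨x, ω⟩, y⟩
  unfold swp
  simp only [Prod.mk.injEq, true_and]
  constructor
  · funext p
    by_cases hp : ∃ j, bb hm x j = p
    · obtain ⟨j, rfl⟩ := hp
      rw [(bb_inj hm x).extend_apply]
    · rw [Function.extend_apply' _ _ _ hp, Function.extend_apply' _ _ _ hp]
  · funext j
    rw [(bb_inj hm x).extend_apply]

end

theorem card_asked {n : ℕ} (Q : Finset (List Bool)) :
    Nat.card {x : Coins n // ∃ j : Fin (3 * n), bl (List.ofFn x) j ∈ Q} ≤ Q.card := by
  classical
  rw [Nat.card_eq_fintype_card, Fintype.card_subtype]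
  have h1 : ((Finset.univ.filter fun x : Coins n =>
      ∃ j : Fin (3 * n), bl (List.ofFn x) j ∈ Q)).card ≤
      (Q.image fun z => z.tail.tail.take n).card := by
    refine Finset.card_le_card_of_injOn (fun x => List.ofFn x) ?_ ?_
    · intro x hx
      simp only [Finset.coe_filter, Finset.mem_univ, true_and, Set.mem_ofPred_eq] at hx
      obtain ⟨j, hj⟩ := hx
      simp only [Finset.coe_image, Set.mem_image, Finset.mem_coe]
      refine ⟨_, hj, ?_⟩
      have h2 := take_bl (x := List.ofFn x) (j : ℕ)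
      rwa [List.length_ofFn] at h2
    · intro x _ x' _ h
      exact List.ofFn_injective h
  exact h1.trans Finset.card_image_le

theorem card_range {n : ℕ} (O : Oracle) :
    Nat.card {y : Fin (3 * n) → Bool // ∃ x : Coins n, rf O (List.ofFn x) = List.ofFn y} ≤
      Nat.card (Coins n) := by
  refine Nat.card_le_card_of_injective (fun y => y.2.choose) ?_
  intro y y' h
  have h1 := y.2.choose_spec
  have h2 := y'.2.choose_spec
  dsimp only at h
  rw [h, h2] at h1
  exact Subtype.ext (List.ofFn_injective h1.symm)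

/-- the finite version -/
theorem fin_owf (T : Set (List Bool)) (G Λ : Oracle) (hT : ∀ u : List Bool, false :: false :: u ∉ T)
    (n m t : ℕ) (hm : 4 * n + 2 ≤ m) (I : Oracle → List Bool → List Bool)
    (hI : ∀ (A : Oracle) (y : List Bool), y.length = 3 * n → ∃ Q : Finset (List Bool), Q.card ≤ t ∧
      ∀ A' : Oracle, (∀ q ∈ Q, A' q = A q) → I A' y = I A y) :
    (prob fun s : Coins n × (Pos 0 m → Bool) =>
      rf (OO T G Λ s.2) (I (OO T G Λ s.2) (rf (OO T G Λ s.2) (List.ofFn s.1))) =
        rf (OO T G Λ s.2) (List.ofFn s.1)) ≤ (t + 2) / 2 ^ n := by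
  classical
  set Ω := Pos 0 m → Bool with hΩ
  set Y := Fin (3 * n) → Bool with hY
  have hI' : ∀ (A : Oracle) (y : Y), ∃ Q : Finset (List Bool), Q.card ≤ t ∧
      ∀ A' : Oracle, (∀ q ∈ Q, A' q = A q) → I A' (List.ofFn y) = I A (List.ofFn y) :=
    fun A y => hI A _ List.length_ofFn
  choose Q hQ1 hQ2 using hI'
  let ev : Coins n × Ω → Prop := fun s =>
    rf (OO T G Λ s.2) (I (OO T G Λ s.2) (rf (OO T G Λ s.2) (List.ofFn s.1))) =
      rf (OO T G Λ s.2) (List.ofFn s.1)
  change prob ev ≤ _
  -- exchange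
  have h1 : Nat.card {s // ev s} * Nat.card Y =
      Nat.card {p : (Coins n × Ω) × Y // ev (swp hm p).1} := by
    have e1 : {p : (Coins n × Ω) × Y // ev (swp hm p).1} ≃ {p : (Coins n × Ω) × Y // ev p.1} :=
      Equiv.subtypeEquiv (swp_swp hm).toPerm fun p => Iff.rfl
    have e2 : {p : (Coins n × Ω) × Y // ev p.1} ≃ {s // ev s} × Y :=
      { toFun := fun p => (⟨p.1.1, p.2⟩, p.1.2)
        invFun := fun p => ⟨(p.1.1, p.2), p.1.2⟩
        left_inv := fun _ => rfl
        right_inv := fun _ => rfl }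
    rw [Nat.card_congr e1, Nat.card_congr e2, Nat.card_prod]
  -- the three cases
  let PA : Coins n → Ω × Y → Prop := fun x s =>
    ∃ j : Fin (3 * n), bl (List.ofFn x) j ∈ Q (OO T G Λ s.1) s.2
  let PB : Coins n → Ω × Y → Prop := fun x s =>
    I (OO T G Λ s.1) (List.ofFn s.2) = List.ofFn x
  let PC : Y → Coins n × Ω → Prop := fun y s =>
    ∃ x : Coins n, rf (OO T G Λ s.2) (List.ofFn x) = List.ofFn y
  have h2 : ∀ p : (Coins n × Ω) × Y, ev (swp hm p).1 →
      PA p.1.1 (p.1.2, p.2) ∨ (PB p.1.1 (p.1.2, p.2) ∨ PC p.2 p.1) := by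
    rintro ⟨⟨x, ω⟩, y⟩ hp
    by_contra hcon
    rw [not_or, not_or] at hcon
    obtain ⟨hA, hB, hC⟩ := hcon
    dsimp only [ev, swp] at hp
    rw [rf_extend T G Λ hT] at hp
    have hrun : I (OO T G Λ (Function.extend (bb hm x) y ω)) (List.ofFn y) =
        I (OO T G Λ ω) (List.ofFn y) :=
      hQ2 _ _ _ fun z hz => OO_ne T G Λ hm ω x y fun j hj => hA ⟨j, by rw [← hj]; exact hz⟩
    rw [hrun] at hp
    have hne : I (OO T G Λ ω) (List.ofFn y) ≠ List.ofFn x := hB
    have hlen := congrArg List.length hp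
    rw [rf_length, List.length_ofFn] at hlen
    have hlen' : (I (OO T G Λ ω) (List.ofFn y)).length = n := by omega
    rw [rf_ne T G Λ hm ω x y hlen' hne] at hp
    have hx' : ∀ z : List Bool, z.length = n → ∃ x : Coins n, List.ofFn x = z := by
      intro z hz
      subst hz
      exact ⟨fun i => z.get i, List.ofFn_get z⟩
    obtain ⟨x', hx'⟩ := hx' _ hlen'
    refine hC ⟨x', ?_⟩
    rw [hx']
    exact hp
  have h3 : Nat.card {p : (Coins n × Ω) × Y // ev (swp hm p).1} ≤
      t * Nat.card (Ω × Y) + (1 * Nat.card (Ω × Y) + Nat.card (Coins n) * Nat.card (Coins n × Ω)) := by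
    refine (card_or_le _ _ _ h2).trans (Nat.add_le_add ?_ ((card_or_le _ _ _ fun _ h => h).trans
      (Nat.add_le_add ?_ ?_)))
    · have e : {p : (Coins n × Ω) × Y // PA p.1.1 (p.1.2, p.2)} ≃
          {p : Coins n × (Ω × Y) // PA p.1 p.2} :=
        Equiv.subtypeEquiv (Equiv.prodAssoc _ _ _) fun p => Iff.rfl
      rw [Nat.card_congr e]
      exact card_prod_le PA t fun s => (card_asked _).trans (hQ1 _ _)
    · have e : {p : (Coins n × Ω) × Y // PB p.1.1 (p.1.2, p.2)} ≃
          {p : Coins n × (Ω × Y) // PB p.1 p.2} :=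
        Equiv.subtypeEquiv (Equiv.prodAssoc _ _ _) fun p => Iff.rfl
      rw [Nat.card_congr e]
      exact card_prod_le PB 1 fun s => card_eq_one _
    · have e : {p : (Coins n × Ω) × Y // PC p.2 p.1} ≃ {p : Y × (Coins n × Ω) // PC p.1 p.2} :=
        Equiv.subtypeEquiv (Equiv.prodComm _ _) fun p => Iff.rfl
      rw [Nat.card_congr e]
      exact card_prod_le PC _ fun s => card_range _
  have hcX : Nat.card (Coins n) = 2 ^ n := by simp [Coins]
  have hcY : Nat.card Y = 2 ^ (3 * n) := by simp [hY]
  have hΩpos : 0 < Nat.card Ω := Nat.card_pos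
  rw [← h1, Nat.card_prod, Nat.card_prod, hcX, hcY] at h3
  -- conclusion
  have h4 : Nat.card {s // ev s} ≤ (t + 2) * Nat.card Ω := by
    have h5 : (2 : ℕ) ^ (3 * n) = 2 ^ n * 2 ^ n * 2 ^ n := by
      rw [← pow_add, ← pow_add]
      congr 1
      omega
    have h6 : 2 ^ n * (2 ^ n * Nat.card Ω) ≤ 2 ^ (3 * n) * Nat.card Ω := by
      rw [h5]
      have : 1 ≤ 2 ^ n := Nat.one_le_two_pow
      nlinarith [Nat.zero_le (2 ^ n * 2 ^ n * Nat.card Ω)]
    have h7 : Nat.card {s // ev s} * 2 ^ (3 * n) ≤ ((t + 2) * Nat.card Ω) * 2 ^ (3 * n) := by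
      nlinarith [h3, h6]
    exact Nat.le_of_mul_le_mul_right h7 (by positivity)
  unfold prob
  rw [← Nat.card_eq_fintype_card (α := Coins n × Ω), Nat.card_prod, hcX]
  have hΩ' : (0 : ℝ) < Nat.card Ω := by exact_mod_cast hΩpos
  have h8 : ((Nat.card {s // ev s} : ℕ) : ℝ) ≤ ((t : ℝ) + 2) * Nat.card Ω := by exact_mod_cast h4
  rw [div_le_div_iff₀ (by positivity) (by positivity)]
  push_cast
  nlinarith [h8, show (0 : ℝ) < 2 ^ n by positivity]

/-! ### The measure -/

theorem ranO_loc (m : ℕ) (P : Oracle → Prop)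
    (hP : ∀ R R' : Oracle, (∀ u : List Bool, u.length < m → R u = R' u) → (P R ↔ P R')) :
    (ranO {R | P R}).toReal =
      prob fun ω : Pos 0 m → Bool => P (ext (fun _ => false) ω) := by
  have h := Pool.Agent.W2helper24.PK.p_win (fun _ => false) 0 m P hP
  have hu : Pool.Agent.W2helper56.PK.cyl (fun _ => false) 0 = Set.univ := by
    ext R
    simp [Pool.Agent.W2helper56.PK.cyl]
  rw [hu, Set.univ_inter, measure_univ, mul_one] at h
  rw [h, ENNReal.toReal_ofReal]
  unfold prob
  positivity

theorem card_sigma_prod {α β : Type} [Fintype α] [Finite β] (P : α → β → Prop) :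
    Nat.card {p : α × β // P p.1 p.2} = ∑ a, Nat.card {b // P a b} := by
  let e : {p : α × β // P p.1 p.2} ≃ Σ a, {b // P a b} :=
    { toFun := fun p => ⟨p.1.1, ⟨p.1.2, p.2⟩⟩
      invFun := fun s => ⟨(s.1, s.2.1), s.2.2⟩
      left_inv := fun _ => rfl
      right_inv := fun _ => rfl }
  rw [Nat.card_congr e, Nat.card_sigma]

open Classical in
theorem card_real {α : Type} [Fintype α] (P : α → Prop) :
    (Nat.card {a // P a} : ℝ) = ∑ a, if P a then (1 : ℝ) else 0 := by
  rw [Nat.card_eq_fintype_card, Fintype.card_subtype, Finset.card_eq_sum_ones, Finset.sum_filter]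
  push_cast
  rfl

/-- the average of the number of elements of a random set -/
theorem int_card {α : Type} [Fintype α] (m : ℕ) (P : α → Oracle → Prop)
    (hP : ∀ a, ∀ R R' : Oracle, (∀ u : List Bool, u.length < m → R u = R' u) → (P a R ↔ P a R')) :
    ∫ B, (Nat.card {a // P a B} : ℝ) ∂ranO =
      ∑ a, prob fun ω : Pos 0 m → Bool => P a (ext (fun _ => false) ω) := by
  classical
  have hme : ∀ a, MeasurableSet {B | P a B} := fun a =>
    (Pool.Agent.W2helper24.PK.closed_local m (P a) (hP a)).measurableSet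
  have h1 : (fun B => (Nat.card {a // P a B} : ℝ)) =
      fun B => ∑ a, Set.indicator {B | P a B} (fun _ => (1 : ℝ)) B := by
    funext B
    rw [card_real]
    refine Finset.sum_congr rfl fun a _ => ?_
    simp only [Set.indicator_apply, Set.mem_ofPred_eq]
  rw [h1, integral_finsetSum]
  · refine Finset.sum_congr rfl fun a _ => ?_
    rw [integral_indicator_const _ (hme a), smul_eq_mul, mul_one, ← ranO_loc m (P a) (hP a)]
    rfl
  · intro a _
    exact (integrable_const _).indicator (hme a)

theorem rf_congr {A A' : Oracle} {n m : ℕ} (hm : 4 * n + 2 ≤ m)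
    (h : ∀ u : List Bool, u.length < m → A u = A' u) {x : List Bool} (hx : x.length = n) :
    rf A x = rf A' x := by
  rw [rf_eq, rf_eq]
  refine List.map_congr_left fun j hj => h _ ?_
  rw [List.mem_range] at hj
  rw [length_bl]
  omega

theorem p_owf1 : P_owf1 := by
  classical
  intro T G M p hT
  obtain ⟨qb, hloc⟩ := M.out_local
  refine ⟨M.p.comp (Polynomial.C 2 * p + Polynomial.C 5 * Polynomial.X + Polynomial.C 2) +
    Polynomial.C 2, fun n => ?_⟩
  set L : ℕ := 2 * p.eval n + 5 * n + 2 with hL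
  set m : ℕ := max (4 * n + 2) (qb.eval L + 1) with hm
  have hm1 : 4 * n + 2 ≤ m := le_max_left _ _
  have hm2 : qb.eval L + 1 ≤ m := le_max_right _ _
  have hq : ((M.p.comp (Polynomial.C 2 * p + Polynomial.C 5 * Polynomial.X + Polynomial.C 2) +
      Polynomial.C 2).eval n) = M.p.eval L + 2 := by
    simp only [Polynomial.eval_add, Polynomial.eval_comp, Polynomial.eval_mul, Polynomial.eval_C,
      Polynomial.eval_X, hL]
  have hlen : ∀ w y : List Bool, w.length = p.eval n → y.length = 3 * n →
      (pairBits w (pairBits (un n) y)).length = L := by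
    intro w y hw hy
    rw [length_pairBits, length_pairBits, hw, hy, un, List.length_replicate, hL]
    omega
  -- the algorithm
  have hacc : ∀ (w : List Bool), w.length = p.eval n → ∀ (A : Oracle) (y : List Bool),
      y.length = 3 * n → ∃ Q : Finset (List Bool), Q.card ≤ M.p.eval L ∧
        (∀ q ∈ Q, q.length ≤ qb.eval L) ∧
        ∀ A' : Oracle, (∀ q ∈ Q, A' q = A q) → acc M A' (pairBits w (pairBits (un n) y)) =
          acc M A (pairBits w (pairBits (un n) y)) := by
    intro w hw A y hy
    obtain ⟨Q, h1, h2, h3⟩ := hloc A (pairBits w (pairBits (un n) y))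
    rw [hlen w y hw hy] at h1 h2
    refine ⟨Q, h1, h2, fun A' hA' => ?_⟩
    unfold acc
    rw [h3 A' hA']
  -- the event
  let ev : Coins n × Coins (p.eval n) → Oracle → Prop := fun s B =>
    rf (mix T G B) (acc M (mix T G B) (pairBits (List.ofFn s.2) (pairBits (un n)
      (rf (mix T G B) (List.ofFn s.1))))) = rf (mix T G B) (List.ofFn s.1)
  have hev : ∀ s, ∀ R R' : Oracle, (∀ u : List Bool, u.length < m → R u = R' u) →
      (ev s R ↔ ev s R') := by
    rintro ⟨x, w⟩ R R' hR
    have hmix : ∀ u : List Bool, u.length < m → mix T G R u = mix T G R' u := by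
      intro u hu
      unfold Pool.Agent.W2helper58.IR.mix
      rw [hR u hu]
    have hx : (List.ofFn x).length = n := List.length_ofFn
    have h1 := rf_congr hm1 hmix hx
    obtain ⟨Q, _, hQ2, hQ3⟩ := hacc (List.ofFn w) List.length_ofFn (mix T G R')
      (rf (mix T G R') (List.ofFn x)) (by rw [rf_length, hx])
    have h2 := hQ3 (mix T G R) fun q hq => hmix q (by have := hQ2 q hq; omega)
    dsimp only [ev]
    rw [h1, h2]
    generalize acc M (mix T G R') (pairBits (List.ofFn w) (pairBits (un n)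
      (rf (mix T G R') (List.ofFn x)))) = z
    by_cases hz : z.length = n
    · rw [rf_congr hm1 hmix hz]
    · constructor <;> intro h <;>
      · have h3 := congrArg List.length h
        rw [rf_length, rf_length, hx] at h3
        omega
  have h1 : ∀ B, inv (rf (mix T G B)) (acc M (mix T G B)) p n =
      (Nat.card {s // ev s B} : ℝ) / 2 ^ (n + p.eval n) := fun B => rfl
  simp only [h1]
  rw [integral_div, int_card m ev hev, Fintype.sum_prod_type_right, hq]
  have h2 : ∀ w : Coins (p.eval n), ∑ x : Coins n,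
      (prob fun ω : Pos 0 m → Bool => ev (x, w) (ext (fun _ => false) ω)) ≤
        ((M.p.eval L : ℕ) : ℝ) + 2 := by
    intro w
    have h3 := fin_owf T G (fun _ => false) hT n m (M.p.eval L) hm1
      (fun A y => acc M A (pairBits (List.ofFn w) (pairBits (un n) y)))
      (fun A y hy => by
        obtain ⟨Q, a, _, b⟩ := hacc (List.ofFn w) List.length_ofFn A y hy
        exact ⟨Q, a, b⟩)
    have h4 : (prob fun s : Coins n × (Pos 0 m → Bool) =>
        rf (OO T G (fun _ => false) s.2) (acc M (OO T G (fun _ => false) s.2)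
          (pairBits (List.ofFn w) (pairBits (un n)
            (rf (OO T G (fun _ => false) s.2) (List.ofFn s.1))))) =
        rf (OO T G (fun _ => false) s.2) (List.ofFn s.1)) =
        (∑ x : Coins n,
      (prob fun ω : Pos 0 m → Bool => ev (x, w) (ext (fun _ => false) ω))) / 2 ^ n := by
      have h5 := card_sigma_prod (α := Coins n) (β := Pos 0 m → Bool) fun x ω =>
        ev (x, w) (ext (fun _ => false) ω)
      unfold prob
      rw [← Finset.sum_div, div_div]
      have h6 : (Fintype.card (Coins n × (Pos 0 m → Bool)) : ℝ) =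
          (Fintype.card (Pos 0 m → Bool) : ℝ) * 2 ^ n := by
        rw [Fintype.card_prod, mul_comm]
        simp [Coins]
      rw [h6]
      congr 1
      have h7 : ((Nat.card {q : Coins n × (Pos 0 m → Bool) //
          ev (q.1, w) (ext (fun _ => false) q.2)} : ℕ) : ℝ) =
          ∑ x : Coins n, ((Nat.card {ω : Pos 0 m → Bool // ev (x, w) (ext (fun _ => false) ω)} :
            ℕ) : ℝ) := by
        rw [h5]
        push_cast
        rfl
      exact h7
    rw [h4] at h3
    rwa [div_le_div_iff_of_pos_right (by positivity)] at h3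
  have h8 : ∑ w : Coins (p.eval n), ∑ x : Coins n,
      (prob fun ω : Pos 0 m → Bool => ev (x, w) (ext (fun _ => false) ω)) ≤
        2 ^ (p.eval n) * (((M.p.eval L : ℕ) : ℝ) + 2) := by
    refine (Finset.sum_le_sum fun w _ => h2 w).trans ?_
    rw [Finset.sum_const, Finset.card_univ, nsmul_eq_mul]
    simp [Coins]
  rw [pow_add, div_le_div_iff₀ (by positivity) (by positivity)]
  push_cast
  nlinarith [h8, show (0 : ℝ) < 2 ^ n by positivity]

end Pool.Agent.W2helper68.IR
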